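import Pool.Prelude.Def_H_3587d628
import Pool.Agent.Lib.MP_b0bae3_lc.Main

namespace Pool.Agent.Results.MP_b0bae3_lc.NPComplete

open Pool.Agent.Lib.MP_b0bae3_lc

/-- Deciding whether the Ferrers partition number is at most two is NP-complete. -/
theorem result :
    (∃ L ∈ N68a2faeb.NP, ∀ M : List (List Bool),
      L (N487b59b3.bitEncode M) = true ↔ fp (edge M) ≤ 2) ∧
    ∀ L ∈ N68a2faeb.NP, ∃ f : List Bool → List (List Bool), N68a2faeb.IsPolyTime f ∧
      ∀ x, Rect (f x) ∧ (L x = true ↔ fp (edge (f x)) ≤ 2) :=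
  ⟨mem, fun _ hL => (hardness hL).imp fun _ h => ⟨h.1.isPolyTime, h.2⟩⟩

end Pool.Agent.Results.MP_b0bae3_lc.NPComplete
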